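import Pool.Agent.N463.MI.Stm

/-!
Project MI, part H01: signed counts of partitions and overpartitions.
-/

open Finset Polynomial

noncomputable section

namespace Pool.Agent.N540.MI

open Pool.Agent.N463.MI

lemma even_sub_odd {α : Type*} [Fintype α] (f : α → ℕ) :
    (((Finset.univ.filter (fun x : α => Even (f x))).card : ℤ)
      - (Finset.univ.filter (fun x : α => Odd (f x))).card) = ∑ x : α, (-1 : ℤ) ^ f x := by
  classical
  rw [Finset.card_filter, Finset.card_filter]
  push_cast
  rw [← Finset.sum_sub_distrib]
  refine Finset.sum_congr rfl (fun x _ => ?_)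
  rcases Nat.even_or_odd (f x) with h | h
  · have h' : ¬ Odd (f x) := Nat.not_odd_iff_even.mpr h
    simp [h, h']
  · have h' : ¬ Even (f x) := Nat.not_even_iff_odd.mpr h
    rw [if_neg h', if_pos h, h.neg_one_pow]
    norm_num

theorem t_H01 : H01 := by
  classical
  intro n
  constructor
  · have h := even_sub_odd (fun p : n.Partition => missing p)
    unfold Me Mo ws
    simp only [one_pow, mul_one]
    convert h using 2
  · have h := even_sub_odd (fun p : OP n => missing p.1)
    have h2 : ∑ x : OP n, (-1 : ℤ) ^ missing x.1 = ws 2 n := by
      unfold ws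
      rw [Fintype.sum_sigma]
      refine Finset.sum_congr rfl (fun p _ => ?_)
      simp only
      rw [Finset.sum_const, Finset.card_univ]
      have hc : Fintype.card {S : Finset ℕ // S ∈ p.parts.toFinset.powerset}
          = 2 ^ p.parts.toFinset.card := by
        rw [Fintype.card_coe, Finset.card_powerset]
      rw [hc]
      simp only [nsmul_eq_mul]
      push_cast
      ring
    rw [← h2]
    unfold OMe OMo
    convert h using 2

end Pool.Agent.N540.MI
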